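import Pool.Agent.W295.PR.Stm

/-!
# TRA3: integer polynomials vanishing at `0` as index polynomials
-/

set_option autoImplicit false

namespace Pool.Agent.W410.PR.TRA3

open Pool.Agent.W295.PR

theorem main : S_TRA3 := by
  intro d p hp
  refine ⟨∑ i, (p i).natDegree, fun i l => (p i).coeff ((l : ℕ) + 1), ?_⟩
  intro i z
  have h1 : (p i).natDegree < (∑ i, (p i).natDegree) + 1 :=
    Nat.lt_succ_of_le (Finset.single_le_sum (f := fun i => (p i).natDegree)
      (fun _ _ => Nat.zero_le _) (Finset.mem_univ i))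
  have h0 : (p i).coeff 0 = 0 := by
    rw [Polynomial.coeff_zero_eq_eval_zero]
    exact hp i
  rw [Polynomial.eval_eq_sum_range' h1, Finset.sum_range_succ', h0, zero_mul, add_zero]
  unfold ev
  rw [Fin.sum_univ_eq_sum_range (fun l => (p i).coeff (l + 1) * z ^ (l + 1))]

end Pool.Agent.W410.PR.TRA3
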